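import Mathlib

set_option autoImplicit false

namespace Pool.Agent.Results.MP_1cad20_al.LeftDischinger

/-- `pw a n = a ^ (n + 1)`, the positive powers of an element of a ring (an identity element is
not assumed). -/
def pw {R : Type} [NonUnitalRing R] (a : R) : ℕ → R
  | 0 => a
  | n + 1 => pw a n * a

/-- `R` is weakly left duo: for every `a` there is `n ≥ 1` such that the left ideal
`R a ^ n = {r a ^ n}` is a two-sided ideal, i.e. is closed under right multiplication. -/
def WeaklyLeftDuo (R : Type) [NonUnitalRing R] : Prop :=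
  ∀ a : R, ∃ n : ℕ, ∀ r s : R, ∃ t : R, (r * pw a n) * s = t * pw a n

/-- `a` is left strongly regular: `a = x a ^ 2` for some `x`. -/
def LeftStronglyRegular {R : Type} [NonUnitalRing R] (a : R) : Prop := ∃ x : R, a = x * (a * a)

/-- `a` is right strongly regular: `a = a ^ 2 x` for some `x`. -/
def RightStronglyRegular {R : Type} [NonUnitalRing R] (a : R) : Prop := ∃ x : R, a = (a * a) * x

/-- `R` is left Dischinger: every left strongly regular element is strongly regular. -/
def IsLeftDischinger (R : Type) [NonUnitalRing R] : Prop :=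
  ∀ a : R, LeftStronglyRegular a → LeftStronglyRegular a ∧ RightStronglyRegular a

variable {R : Type} [NonUnitalRing R]

lemma pw_succ' (c : R) (n : ℕ) : c * pw c n = pw c (n + 1) := by
  induction n with
  | zero => rfl
  | succ n ih => rw [pw, ← mul_assoc, ih]; rfl

lemma nil_of_sq (h : WeaklyLeftDuo R) (b r : R) (hb : b * b = 0) : ∃ k, pw (r * b) k = 0 := by
  obtain ⟨n, hn⟩ := h (r * b)
  obtain ⟨t, ht⟩ := hn (r * b) r
  have h1 : pw (r * b) n * b = 0 := by
    cases n with
    | zero => simp [pw, mul_assoc, hb]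
    | succ n => simp [pw, mul_assoc, hb]
  refine ⟨n + 2, ?_⟩
  have h2 : pw (r * b) (n + 2) = (r * b * pw (r * b) n * r) * b := by
    rw [pw_succ']
    simp only [pw, mul_assoc]
  rw [h2, ht, mul_assoc, h1, mul_zero]

lemma idem_right (h : WeaklyLeftDuo R) (e : R) (he : e * e = e) (r : R) : e * r = e * r * e := by
  have hp : ∀ n, pw e n = e := by
    intro n
    induction n with
    | zero => rfl
    | succ n ih => rw [pw, ih, he]
  obtain ⟨n, hn⟩ := h e
  obtain ⟨t, ht⟩ := hn e r
  rw [hp, he] at ht
  rw [ht, mul_assoc, he]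

/-- lifting of idempotents in a ring with identity, with control -/
lemma lift_unital {U : Type} [Ring U] (E A : U) (hEA : E * A = A) (k : ℕ)
    (hnil : (E * E - E) ^ (k + 1) = 0) :
    ∃ P : U, (P * E) * (P * E) = P * E ∧ (P * E) * A = A := by
  obtain ⟨u, v, huv⟩ : IsCoprime ((Polynomial.X : Polynomial ℤ) ^ (k + 1))
      ((1 - Polynomial.X) ^ (k + 1)) := by
    apply IsCoprime.pow
    exact ⟨1, 1, by ring⟩
  set Y : Polynomial ℤ := Polynomial.X with hY
  set p : Polynomial ℤ := u * Y ^ k with hp
  have hp1 : 1 - p * Y = v * (1 - Y) ^ (k + 1) := by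
    have h0 : p * Y = u * Y ^ (k + 1) := by rw [hp]; ring
    rw [h0]
    linear_combination -huv
  have hq : p * Y * (p * Y) - p * Y = (-(u * v) * (-1) ^ (k + 1)) * (Y * Y - Y) ^ (k + 1) := by
    have h2 : p * Y * (p * Y) - p * Y = - (p * Y) * (v * (1 - Y) ^ (k + 1)) := by
      rw [← hp1]; ring
    have h3 : (Y * Y - Y) = (-1) * (Y * (1 - Y)) := by ring
    have h4 : ((-1 : Polynomial ℤ) ^ (k + 1)) * (-1) ^ (k + 1) = 1 := by
      rw [← mul_pow]; simp
    rw [h2, h3, mul_pow, mul_pow]
    calc -(p * Y) * (v * (1 - Y) ^ (k + 1))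
        = -(u * v) * (Y ^ (k + 1) * (1 - Y) ^ (k + 1)) := by
          rw [hp]; ring
      _ = -(u * v) * (Y ^ (k + 1) * (1 - Y) ^ (k + 1)) *
          (((-1 : Polynomial ℤ) ^ (k + 1)) * (-1) ^ (k + 1)) := by rw [h4, mul_one]
      _ = _ := by ring
  have hev : Polynomial.aeval E Y = E := Polynomial.aeval_X E
  refine ⟨Polynomial.aeval E p, ?_, ?_⟩
  · have h5 : Polynomial.aeval E (p * Y * (p * Y) - p * Y) = 0 := by
      rw [hq]
      simp only [map_mul, map_pow, map_sub, hev, hnil, mul_zero]
    rw [map_sub, map_mul, map_mul, hev] at h5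
    exact sub_eq_zero.mp h5
  · have hact : ∀ Q : Polynomial ℤ, Polynomial.aeval E Q * A = (Q.eval 1) • A := by
      intro Q
      induction Q using Polynomial.induction_on' with
      | add P Q hP hQ => rw [map_add, add_mul, hP, hQ, Polynomial.eval_add, add_smul]
      | monomial n c =>
        have hE2 : ∀ n : ℕ, E ^ n * A = A := by
          intro n
          induction n with
          | zero => simp
          | succ n ih => rw [pow_succ, mul_assoc, hEA, ih]
        rw [Polynomial.aeval_monomial, Polynomial.eval_monomial, one_pow, mul_one, mul_assoc,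
          hE2, ← Algebra.smul_def]
    have h6 : Polynomial.aeval E (p * Y) * A = ((p * Y).eval 1) • A := hact _
    rw [map_mul, hev] at h6
    rw [h6]
    have h7 : (1 - p * Y).eval 1 = 0 := by
      rw [hp1, hY]; simp
    rw [Polynomial.eval_sub, Polynomial.eval_one] at h7
    rw [show (p * Y).eval 1 = 1 by linarith, one_smul]

/-- lifting of idempotents, with control -/
lemma lift (a x : R) (hx : a = x * (a * a)) (k : ℕ) (hk : pw (x * a * (x * a) - x * a) k = 0) :
    ∃ ε w : R, ε * ε = ε ∧ ε = w * a ∧ ε * a = a := by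
  have ι_mem : ∀ (u : Unitization ℤ R) (r : R),
      ∃ s : R, u * (Unitization.inr r : Unitization ℤ R) = Unitization.inr s := by
    intro u r
    refine ⟨(u * (Unitization.inr r : Unitization ℤ R)).snd, ?_⟩
    refine Unitization.ext ?_ ?_
    · rw [Unitization.fst_mul, Unitization.fst_inr, mul_zero, Unitization.fst_inr]
    · rw [Unitization.snd_inr]
  have hea : (x * a) * a = a := by rw [mul_assoc]; exact hx.symm
  have hpow : ∀ (e : R) (n : ℕ), (Unitization.inr (pw (e * e - e) n) : Unitization ℤ R) =
      ((Unitization.inr e : Unitization ℤ R) * Unitization.inr e - Unitization.inr e) ^ (n + 1) := by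
    intro e n
    induction n with
    | zero => rw [pw, Unitization.inr_sub, Unitization.inr_mul, pow_one]
    | succ n ih =>
      rw [pw, Unitization.inr_mul, ih, Unitization.inr_sub, Unitization.inr_mul,
        pow_succ _ (n + 1)]
  obtain ⟨P, hP1, hP2⟩ := lift_unital (Unitization.inr (x * a) : Unitization ℤ R)
    (Unitization.inr a) (by rw [← Unitization.inr_mul, hea]) k (by
      rw [← hpow, hk, Unitization.inr_zero])
  obtain ⟨w, hw⟩ := ι_mem P x
  have hPw : P * (Unitization.inr (x * a) : Unitization ℤ R) = Unitization.inr (w * a) := by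
    calc P * (Unitization.inr (x * a) : Unitization ℤ R)
        = P * ((Unitization.inr x : Unitization ℤ R) * Unitization.inr a) :=
          congrArg (P * ·) (Unitization.inr_mul ℤ x a)
      _ = (P * (Unitization.inr x : Unitization ℤ R)) * Unitization.inr a :=
          (mul_assoc (G := Unitization ℤ R) P (Unitization.inr x) (Unitization.inr a)).symm
      _ = (Unitization.inr w : Unitization ℤ R) * Unitization.inr a := by rw [hw]
      _ = Unitization.inr (w * a) := (Unitization.inr_mul ℤ w a).symm
  rw [hPw] at hP1 hP2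
  refine ⟨w * a, w, ?_, rfl, ?_⟩
  · apply Unitization.inr_injective (R := ℤ)
    rw [Unitization.inr_mul]; exact hP1
  · apply Unitization.inr_injective (R := ℤ)
    rw [Unitization.inr_mul]; exact hP2

/-- Every weakly left duo ring (identity not assumed) is left Dischinger. -/
theorem result (R : Type) [NonUnitalRing R] (h : WeaklyLeftDuo R) : IsLeftDischinger R := by
  rintro a ⟨x, hx⟩
  refine ⟨⟨x, hx⟩, ?_⟩
  -- the nilpotent element
  set z : R := a * (x * a) - a with hz
  have hza : z * a = 0 := by
    rw [hz, sub_mul, mul_assoc, mul_assoc, ← hx, sub_self]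
  have hzz : z * z = 0 := by
    nth_rewrite 2 [hz]
    rw [mul_sub, ← mul_assoc, hza, zero_mul, sub_zero]
  obtain ⟨k, hk⟩ := nil_of_sq h z x hzz
  have hxz : x * z = x * a * (x * a) - x * a := by
    rw [hz, mul_sub, ← mul_assoc]
  rw [hxz] at hk
  obtain ⟨ε, w, hε, hw, hεa⟩ := lift a x hx k hk
  have haε : a * ε = a := by
    have := idem_right h ε hε a
    rw [hεa] at this
    exact this.symm
  set w' : R := ε * w * ε with hw'
  have hεw' : ε * w' = w' := by rw [hw', ← mul_assoc, ← mul_assoc, hε]
  have hw'ε : w' * ε = w' := by rw [hw', mul_assoc, hε]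
  have hw'a : w' * a = ε := by
    rw [hw', mul_assoc, hεa, mul_assoc, ← hw, hε]
  set t : R := ε - a * w' with ht
  have hta : t * a = 0 := by
    rw [ht, sub_mul, hεa, mul_assoc, hw'a, haε, sub_self]
  have htε : t * ε = t := by
    rw [ht, sub_mul, hε, mul_assoc, hw'ε]
  have htt : t * t = t := by
    nth_rewrite 2 [ht]
    rw [mul_sub, htε, ← mul_assoc, hta, zero_mul, sub_zero]
  have hw't : w' * t = 0 := by
    rw [ht, mul_sub, hw'ε, ← mul_assoc, hw'a, hεw', sub_self]
  have htw' : t * w' = 0 := by
    rw [idem_right h t htt w', mul_assoc, hw't, mul_zero]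
  have hgw : a * w' * w' = w' := by
    have h1 : ε * w' - a * w' * w' = 0 := by rw [← sub_mul]; exact htw'
    rw [hεw'] at h1
    exact (sub_eq_zero.mp h1).symm
  have hg : a * w' = ε := by
    have h1 : a * w' * ε = a * w' := by rw [mul_assoc, hw'ε]
    calc a * w' = a * w' * ε := h1.symm
      _ = a * w' * (w' * a) := by rw [hw'a]
      _ = (a * w' * w') * a := by rw [← mul_assoc]
      _ = w' * a := by rw [hgw]
      _ = ε := hw'a
  exact ⟨w', by rw [mul_assoc, hg, haε]⟩

end Pool.Agent.Results.MP_1cad20_al.LeftDischinger
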